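import Mathlib
import Pool.Agent.Lib.helper4.Planar

set_option autoImplicit false

namespace Pool.Agent.H.MP_4d2e6e_co

open Pool.Agent.Lib.helper4.Planar

/-- closed neighbourhoods of the truncated octahedron, as bit masks -/
def cl (u : ℕ) : ℕ :=
  (216414584436317294988927657029588113446005669442736379796188254415918155976868739649351945982983490764545350137340216497426940562280919855141661150489204801288074599409393675 >>> (24 * u)) % 16777216

def G : SimpleGraph (Fin 24) where
  Adj u v := u ≠ v ∧ (cl u).testBit v = true
  symm := ⟨by decide +kernel⟩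
  loopless := ⟨fun _ h => h.1 rfl⟩

instance : DecidableRel G.Adj := fun u v =>
  inferInstanceAs (Decidable (u ≠ v ∧ (cl u).testBit v = true))

def px : Fin 24 → ℤ := ![30, 21, 6, 24, 0, 9, 17, 16, 12, 17, 14, 12, 19, 24, 17, 13, 16, 14, 17, 22, 10, 7, 14, 10]

def py : Fin 24 → ℤ := ![16, 29, 27, 3, 14, 1, 24, 17, 23, 19, 17, 18, 16, 14, 15, 15, 13, 13, 11, 9, 15, 12, 11, 8]

set_option synthInstance.maxSize 4000 in
theorem drawn0 : ∀ u v, G.Adj u v → ∀ x y, G.Adj x y → u ≠ x → u ≠ y → v ≠ x → v ≠ y →
    Sep px py u v x y := by decide +kernel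

theorem drawn : Drawn G px py := fun u v x y h1 h2 => drawn0 u v h1 x y h2

theorem deg : ∀ v, G.degree v ≤ 3 := by decide +kernel

theorem clq : ∀ u v : Fin 24, ((cl u).testBit v = true ↔ (u = v ∨ G.Adj u v)) := by
  decide +kernel

def L24 : List (Fin 24) :=
  [0, 1, 2, 3, 4, 5, 6, 7, 8, 9, 10, 11, 12, 13, 14, 15, 16, 17, 18, 19, 20, 21, 22, 23]

theorem memL : ∀ v, v ∈ L24 := by decide +kernel

def force (n : ℕ) (f : ℕ → Bool) : Bool := Nat.casesOn n (f 0) fun m => f m.succ

theorem force_eq (n : ℕ) (f : ℕ → Bool) : force n f = f n := by cases n <;> rfl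

def go : ℕ → ℕ → Bool
  | 0, m => (L24.find? fun v => !m.testBit v.val).isSome
  | k + 1, m =>
    match L24.find? fun v => !m.testBit v.val with
    | none => false
    | some v => L24.all fun u => !(cl u.val).testBit v.val ||
        force (m ||| cl u.val) fun m' => go k m'

theorem go_ok : ∀ (k m : ℕ), go k m = true → ∀ D : Finset (Fin 24), D.card ≤ k →
    (∀ v : Fin 24, m.testBit v = true ∨ ∃ u ∈ D, (cl u).testBit v = true) → False := by
  intro k
  induction k with
  | zero =>
    intro m h D hD hv
    simp only [go, List.find?_isSome] at h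
    obtain ⟨v, _, h⟩ := h
    have e : D = ∅ := Finset.card_eq_zero.1 (by omega)
    rcases hv v with q | ⟨u, hu, _⟩
    · simp [q] at h
    · simp [e] at hu
  | succ k ih =>
    intro m h D hD hv
    unfold go at h
    split at h
    · exact absurd h (by simp)
    · rename_i v hf
      have h1 := List.find?_some hf
      rcases hv v with q | ⟨u, hu, q⟩
      · simp [q] at h1
      · have h2 := List.all_eq_true.1 h u (memL u)
        simp only [q, Bool.not_true, Bool.false_or, force_eq] at h2
        refine ih _ h2 (D.erase u) (by rw [Finset.card_erase_of_mem hu]; omega) fun w => ?_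
        rcases hv w with r | ⟨x, hx, r⟩
        · left; simp [Nat.testBit_or, r]
        · by_cases e : x = u
          · left; subst e; simp [Nat.testBit_or, r]
          · right; exact ⟨x, Finset.mem_erase.2 ⟨e, hx⟩, r⟩

theorem go7 : go 7 0 = true := by decide +kernel

theorem low (D : Finset (Fin 24)) (h : ∀ v, v ∈ D ∨ ∃ u ∈ D, G.Adj u v) : 8 ≤ D.card := by
  by_contra c
  refine go_ok 7 0 go7 D (by omega) fun v => Or.inr ?_
  rcases h v with q | ⟨u, hu, q⟩
  · exact ⟨v, q, (clq v v).2 (Or.inl rfl)⟩
  · exact ⟨u, hu, (clq u v).2 (Or.inr q)⟩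

def EL : List (Fin 24 × Fin 24 × ℕ) :=
  [(0, 1, 424198270826170114305785805464667925),
   (0, 3, 880685539400701681016207937447808296),
   (0, 13, 243111186707003473134930105683122502),
   (1, 2, 1206816694452200813472504052071729754),
   (1, 6, 94228997445263254687651875645600480),
   (2, 4, 969832969461252281989479623855126694),
   (2, 8, 817040292249915477768068603196787979),
   (3, 5, 696006850970392569573666599184224346),
   (3, 19, 1080954871137848637179988494624842405),
   (4, 5, 361200417316208146600507921570244372),
   (4, 21, 19212981294826043765393929352794221),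
   (5, 23, 593320952731747977013752159603432369),
   (6, 8, 535136432613856929673625165898675504),
   (6, 9, 388334742409770233528405150434629775),
   (7, 9, 112165097605995857266874170686768745),
   (7, 10, 152630635722789993300741477885340786),
   (7, 14, 1241300588691405526347164749117102788),
   (8, 11, 174419745360169200368105831437649605),
   (9, 12, 710849386267062768908767119862556949),
   (10, 11, 679717564409309619356560562936099356),
   (10, 15, 166601488998709209078417951589888387),
   (11, 20, 488327266184109424780223263364909358),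
   (12, 13, 690857650222598349241626728146780794),
   (12, 14, 509679774534894552380925133318550920),
   (13, 19, 453683933022657772472606633999774915),
   (14, 16, 762102729571127582828646228722324663),
   (15, 17, 182928602819052899216409627031048136),
   (15, 20, 1312735466420237937189052751362098353),
   (16, 17, 446154725801633999674558965494243897),
   (16, 18, 209444393416747693417422156544182627),
   (17, 22, 1049524433999165076001635225738951182),
   (18, 19, 626647164736245995862012675323211672),
   (18, 22, 693674495302263453725989374177988948),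
   (20, 21, 1059908682543865579731264562259878738),
   (21, 23, 251323186221346890055086208100805832),
   (22, 23, 982889721690106951546854143351669927)]

def DL : List ℕ :=
  [9011985, 5317732, 4770321, 2759180, 1381666, 9507032, 2400650, 8962385, 1348001, 1714338,
   8962449, 8784517, 5268592, 2757713, 6427914, 5317088, 8692108, 8749829, 2304546, 5784658,
   661682, 5318180, 2408801, 9212934, 5784657, 5317009, 6362188, 8497669, 2494881, 8690193,
   8688738, 4493713, 6309257, 1364006, 9054354, 11080961, 4335832, 2498977, 2801992, 5786146,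
   10028549, 1704866, 2303052, 5267874, 9736716, 4508177, 8985634, 6349152, 1442469, 4335832,
   9013765, 5268556, 9050258, 9508108, 8701009, 6882828, 1450212, 9509388, 2761184, 9511116,
   2409225, 2771490, 4249626, 2495777, 6362188, 11077125, 2304522, 207410, 10031238, 8700689,
   1359973, 4769873, 2397474, 8495584, 9062930, 6341001, 8704268, 11158594, 2295561, 5259673,
   9016326, 9512036, 2755212, 6558796, 2434136, 2426641, 4352088, 5509329, 1387042, 320624,
   6362200, 6833250, 2761122, 4463642, 10561281, 2296333, 300145, 2396961, 4463697, 5318818,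
   8964614, 8493580, 1450224, 5789730, 2495816, 6390537, 8461338, 6429196, 8688017, 2757922,
   8496652, 8751633, 5382545, 419952, 5317026, 5505701, 10031238, 8700677, 1721442, 5264460]

def free (acc : ℕ) : Bool := (acc &&& (2 ^ 120 - 1)) != 2 ^ 120 - 1

theorem free_ok (acc : ℕ) (h : free acc = true) : ∃ i < 120, acc.testBit i = false := by
  by_contra c
  push Not at c
  have : acc &&& (2 ^ 120 - 1) = 2 ^ 120 - 1 := by
    apply Nat.eq_of_testBit_eq
    intro i
    rw [Nat.testBit_and, Nat.testBit_two_pow_sub_one]
    by_cases q : i < 120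
    · have := c i q
      simp_all
    · simp [q]
  simp only [free, this, bne_self_eq_false] at h
  exact absurd h (by simp)

def chk : List (Fin 24 × Fin 24 × ℕ) → ℕ → ℕ → Bool
  | [], _, acc => free acc
  | _ :: _, 0, acc => free acc
  | e :: t, k + 1, acc => chk t (k + 1) acc && force (acc ||| e.2.2) fun a => chk t k a

theorem chk_ok (p : Fin 24 × Fin 24 × ℕ → Bool) : ∀ (l : List (Fin 24 × Fin 24 × ℕ)) (k acc : ℕ),
    chk l k acc = true → l.countP p ≤ k →
    ∃ i < 120, acc.testBit i = false ∧ ∀ e ∈ l, p e = true → e.2.2.testBit i = false := by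
  intro l
  induction l with
  | nil =>
    intro k acc h _
    obtain ⟨i, hi, q⟩ := free_ok acc (by simpa [chk] using h)
    exact ⟨i, hi, q, by simp⟩
  | cons e t ih =>
    intro k acc h hc
    cases k with
    | zero =>
      obtain ⟨i, hi, q⟩ := free_ok acc (by simpa [chk] using h)
      refine ⟨i, hi, q, fun x hx px => ?_⟩
      have := List.countP_pos_iff.2 ⟨x, hx, px⟩
      omega
    | succ k =>
      simp only [chk, Bool.and_eq_true, force_eq] at h
      by_cases pe : p e = true
      · rw [List.countP_cons_of_pos pe] at hc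
        obtain ⟨i, hi, q, r⟩ := ih k _ h.2 (by omega)
        rw [Nat.testBit_or, Bool.or_eq_false_iff] at q
        refine ⟨i, hi, q.1, fun x hx px => ?_⟩
        rcases List.mem_cons.1 hx with rfl | hx
        · exact q.2
        · exact r x hx px
      · rw [List.countP_cons_of_neg pe] at hc
        obtain ⟨i, hi, q, r⟩ := ih _ _ h.1 hc
        refine ⟨i, hi, q, fun x hx px => ?_⟩
        rcases List.mem_cons.1 hx with rfl | hx
        · exact absurd px pe
        · exact r x hx px

theorem chk4 : chk EL 4 0 = true := by decide +kernel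

def DS (i : ℕ) : Finset (Fin 24) := Finset.univ.filter fun v => (DL.getD i 0).testBit v = true

theorem dcard : ∀ i < 120, (DS i).card ≤ 8 := by decide +kernel

theorem ddom : ∀ i < 120, ∀ v : Fin 24, (DL.getD i 0).testBit v = true ∨
    ∃ e ∈ EL, e.2.2.testBit i = true ∧ ((e.1 = v ∧ (DL.getD i 0).testBit e.2.1 = true) ∨
      (e.2.1 = v ∧ (DL.getD i 0).testBit e.1 = true)) := by decide +kernel

theorem eadj : ∀ e ∈ EL, G.Adj e.1 e.2.1 := by decide +kernel

theorem enod : (EL.map fun e => s(e.1, e.2.1)).Nodup := by decide +kernel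

theorem up (S : Finset (Sym2 (Fin 24))) (hS : S.card ≤ 4) : ∃ D : Finset (Fin 24), D.card ≤ 8 ∧
    ∀ v, v ∈ D ∨ ∃ u ∈ D, (G.deleteEdges (↑S : Set (Sym2 (Fin 24)))).Adj u v := by
  have hc : EL.countP (fun e => decide (s(e.1, e.2.1) ∈ S)) ≤ 4 := by
    have e1 : EL.countP (fun e => decide (s(e.1, e.2.1) ∈ S)) =
        ((EL.map fun e => s(e.1, e.2.1)).filter fun x => decide (x ∈ S)).length := by
      rw [← List.countP_eq_length_filter, List.countP_map]
      rfl
    rw [e1, ← List.toFinset_card_of_nodup (enod.filter _)]
    refine le_trans (Finset.card_le_card fun x hx => ?_) hS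
    simpa using (List.mem_filter.1 (List.mem_toFinset.1 hx)).2
  obtain ⟨i, hi, -, r⟩ := chk_ok _ EL 4 0 chk4 hc
  refine ⟨DS i, dcard i hi, fun v => ?_⟩
  rcases ddom i hi v with q | ⟨e, he, q, z⟩
  · left; simp only [DS, Finset.mem_filter]; exact ⟨Finset.mem_univ _, q⟩
  · right
    have ne : s(e.1, e.2.1) ∉ S := fun c => by
      have := r e he (by simpa using c)
      simp [q] at this
    have ad : (G.deleteEdges (↑S : Set (Sym2 (Fin 24)))).Adj e.1 e.2.1 :=
      SimpleGraph.deleteEdges_adj.2 ⟨eadj e he, by simpa using ne⟩
    rcases z with ⟨rfl, z⟩ | ⟨rfl, z⟩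
    · exact ⟨e.2.1, by simp only [DS, Finset.mem_filter]; exact ⟨Finset.mem_univ _, z⟩, ad.symm⟩
    · exact ⟨e.1, by simp only [DS, Finset.mem_filter]; exact ⟨Finset.mem_univ _, z⟩, ad⟩

end Pool.Agent.H.MP_4d2e6e_co
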